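import Pool.Agent.Helper93.IA.StC

/-!
# Project IA, module SMQ: degrees in the reservoir
-/

set_option autoImplicit false

namespace Pool.Agent.Helper6.IAC

open Finset
open Pool.Agent.Helper93.IA

private theorem num1 {κ ρ η d : ℝ} {n m : ℕ} (h : d ≤ 51 / 50 * ρ * (1 - κ) * m + η * n)
    (h0 : 0 ≤ κ) (h1 : κ ≤ 1) (hρ : 0 ≤ ρ) (hη : η ≤ ρ / 4) (hm : m ≤ n) : d ≤ 2 * ρ * n := by
  have hm' : (m : ℝ) ≤ n := by exact_mod_cast hm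
  have hn0 : (0 : ℝ) ≤ n := Nat.cast_nonneg n
  have hm0 : (0 : ℝ) ≤ m := Nat.cast_nonneg m
  have e1 : ρ * (1 - κ) * m ≤ ρ * n := by
    have a1 : ρ * (1 - κ) ≤ ρ := by nlinarith
    have a2 : 0 ≤ ρ * (1 - κ) := mul_nonneg hρ (by linarith)
    calc ρ * (1 - κ) * m ≤ ρ * (1 - κ) * n := mul_le_mul_of_nonneg_left hm' a2
      _ ≤ ρ * n := mul_le_mul_of_nonneg_right a1 hn0
  have e2 : η * n ≤ ρ / 4 * n := mul_le_mul_of_nonneg_right hη hn0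
  have e3 : 0 ≤ ρ * n := mul_nonneg hρ hn0
  nlinarith

private theorem num2 {ρ d : ℝ} {n : ℕ} (h : d ≤ 3 / 2 * ρ * n) (hρ : 0 ≤ ρ) :
    d ≤ 2 * ρ * n := by
  have e3 : 0 ≤ ρ * n := mul_nonneg hρ (Nat.cast_nonneg n)
  nlinarith

theorem hSMQ : StSMQ := by
  intro α β γ _ _ _ _ _ _ κ ρ η n m A QA B QB C QC U1 W1 U2 W2 U3 W3 hA hB h0 h1 hρ hη hm
  refine ⟨fun a => ?_, fun b => ?_⟩
  · by_cases ha : a ∈ U1
    · exact num2 (hA.inA a ha) hρ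
    · exact num1 (hA.szA a ha).2 h0 h1 hρ hη hm
  · by_cases hb : b ∈ U2
    · exact num2 (hB.inC b hb) hρ
    · exact num1 (hB.szC b hb).2 h0 h1 hρ hη hm

end Pool.Agent.Helper6.IAC
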